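import Pool.Agent.Helper35.HS3.GoalsB

/-!
# Project HS3: packet STRI (the stress identity)
-/

open MeasureTheory Set Filter Topology Metric
open scoped ContDiff

namespace Pool.Agent.Helper38.HS3.STRI

open Pool.Agent.Helper35.HS3

theorem proof : STRI_stmt := by
  intro f a u ζ hf hu heq hζ hc
  have hP : ∀ j, ContDiff ℝ 1 (pd j u) := fun j => contDiff_one_pd hu
  have hPd : ∀ j x, DifferentiableAt ℝ (pd j u) x := fun j x => diff_pd hu j x
  have hud : ∀ x, DifferentiableAt ℝ u x := fun x => diff_of_two hu x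
  have hF : ∀ t, HasDerivAt (Fp f a) (f t) t := fun t => hasDerivAt_Fp hf a t
  have hFc : ContDiff ℝ 1 (Fp f a) := by
    rw [contDiff_one_iff_deriv]
    refine ⟨fun t => (hF t).differentiableAt, ?_⟩
    have : deriv (Fp f a) = f := funext fun t => (hF t).deriv
    rw [this]; exact hf
  have hFu : ContDiff ℝ 1 (fun x => Fp f a (u x)) := hFc.comp (hu.of_le (by norm_num))
  -- the functions
  set A : Fin 3 → E → ℝ := fun j x => pd 0 u x * pd j u x with hA
  set Q : E → ℝ := fun x => gsq u x / 2 + Fp f a (u x) with hQ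
  have hAc : ∀ j, ContDiff ℝ 1 (A j) := fun j => (hP 0).mul (hP j)
  have hQc : ContDiff ℝ 1 Q := ((contDiff_gsq hu).div_const 2).add hFu
  have hA' : ∀ j x, pd j (A j) x = pd 0 u x * pd j (pd j u) x + pd j u x * pd j (pd 0 u) x :=
    fun j x => pd_mul (hPd 0 x) (hPd j x)
  have hg : ∀ x, pd 0 (fun x => gsq u x) x = ∑ j, 2 * pd j u x * pd 0 (pd j u) x := by
    intro x
    have h1 : ∀ j ∈ (Finset.univ : Finset (Fin 3)), HasFDerivAt (fun x => pd j u x ^ 2)
        ((2 * pd j u x) • fderiv ℝ (pd j u) x) x := by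
      intro j _
      have := (hPd j x).hasFDerivAt.pow 2
      refine this.congr_fderiv ?_
      ext w
      simp
    have h2 : HasFDerivAt (fun x => gsq u x) _ x := HasFDerivAt.fun_sum h1
    rw [HasFDerivAt.pd h2]
    simp [Fin.sum_univ_three, pd_def]
  have hQ' : ∀ x, pd 0 Q x = ∑ j, pd j u x * pd 0 (pd j u) x + f (u x) * pd 0 u x := by
    intro x
    have d1 : DifferentiableAt ℝ (fun x => gsq u x) x := diff_of_one (contDiff_gsq hu) x
    have d2 : DifferentiableAt ℝ (fun x => Fp f a (u x)) x := diff_of_one hFu x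
    have e0 : Q = fun x => 1 / 2 * gsq u x + Fp f a (u x) := by
      funext y
      simp only [hQ]
      ring
    have h3 : pd 0 Q x = pd 0 (fun x => 1 / 2 * gsq u x) x + pd 0 (fun x => Fp f a (u x)) x := by
      rw [e0]
      exact pd_add (d1.const_mul (1 / 2 : ℝ)) d2
    have h4 : pd 0 (fun x => 1 / 2 * gsq u x) x = 1 / 2 * pd 0 (fun x => gsq u x) x :=
      pd_const_mul (1 / 2) d1
    rw [h3, h4, hg, pd_comp (hF (u x)) (hud x), Fin.sum_univ_three, Fin.sum_univ_three]
    ring
  -- divergence zero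
  have hdiv : ∀ x, ∑ j, pd j (A j) x - pd 0 Q x = 0 := by
    intro x
    have hl := heq x
    unfold lap at hl
    rw [hQ', ← hl]
    simp only [hA', Fin.sum_univ_three, pd_symm hu.contDiffAt 0 1, pd_symm hu.contDiffAt 0 2]
    ring
  -- integrability
  have hi : ∀ {T : E → ℝ} (j : Fin 3), ContDiff ℝ 1 T → Integrable (fun x => T x * pd j ζ x) :=
    fun j hT => (hT.continuous.mul (continuous_pd hζ)).integrable_of_hasCompactSupport
      (hasCompactSupport_pd j hc).mul_left
  have hk : ∀ {T : E → ℝ} (j : Fin 3), ContDiff ℝ 1 T → Integrable (fun x => ζ x * pd j T x) :=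
    fun j hT => (hζ.continuous.mul (continuous_pd hT)).integrable_of_hasCompactSupport
      hc.mul_right
  have e3 : ∫ x, ((gsq u x / 2 + Fp f a (u x)) * pd 0 ζ x - pd 0 u x * gdot u ζ x) =
      (∫ x, Q x * pd 0 ζ x) - ∑ j, ∫ x, A j x * pd j ζ x := by
    rw [← integral_finsetSum _ (fun j _ => hi j (hAc j)), ← integral_sub (hi 0 hQc)
      (integrable_finsetSum _ (fun j _ => hi j (hAc j)))]
    refine integral_congr_ae (Eventually.of_forall fun x => ?_)
    simp only [gdot, hA, hQ, Finset.mul_sum]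
    congr 1
    refine Finset.sum_congr rfl fun j _ => ?_
    ring
  have e4 : ∀ {T : E → ℝ} (j : Fin 3), ContDiff ℝ 1 T →
      ∫ x, T x * pd j ζ x = - ∫ x, ζ x * pd j T x := by
    intro T j hT
    rw [integral_mul_pd j hζ hc hT, neg_neg]
  rw [e3, e4 0 hQc, Finset.sum_congr rfl (fun j _ => e4 j (hAc j)), Finset.sum_neg_distrib,
    ← integral_finsetSum _ (fun j _ => hk j (hAc j)), sub_neg_eq_add, neg_add_eq_sub,
    ← integral_sub (integrable_finsetSum _ (fun j _ => hk j (hAc j))) (hk 0 hQc)]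
  refine (integral_congr_ae (Eventually.of_forall fun x => ?_)).trans (integral_zero _ _)
  beta_reduce
  have := hdiv x
  rw [← Finset.mul_sum]
  linear_combination (ζ x) * this

end Pool.Agent.Helper38.HS3.STRI
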